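import Pool.Agent.TH180.R2.Rat

/-!
Maps between the groups of points of short Weierstrass curves, and the field of rational functions.
-/

set_option autoImplicit false
set_option linter.all false
set_option maxHeartbeats 1000000

open WeierstrassCurve WeierstrassCurve.Affine FF Polynomial
open scoped nonZeroDivisors

namespace Pool.Agent.TH180.R4

open Pool.Agent.W343.BSD
open Pool.Agent.W313.Gr (curve rank rank_mono)
open Pool.Agent.TH639.B3 (curve_eq)
open Pool.Agent.TH180.R2

section maps

variable {F L : Type} [Field F] [Field L]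

theorem negY_curve (A B x y : F) : (curve A B).toAffine.negY x y = -y := by simp [negY, curve]

/-- `(x, y) ↦ (φ(x) c ^ 2, φ(y) c ^ 3)` preserves points -/
theorem map_ns (φ : F →+* L) {c : L} {A B : F} {A' B' : L} (hA : A' = c ^ 4 * φ A)
    (hB : B' = c ^ 6 * φ B) (h2 : (2 : L) ≠ 0) (hΔ : 4 * A' ^ 3 + 27 * B' ^ 2 ≠ 0) {x y : F}
    (h : (curve A B).toAffine.Nonsingular x y) :
    (curve A' B').toAffine.Nonsingular (φ x * c ^ 2) (φ y * c ^ 3) := by
  apply nonsing h2 hΔ
  have hE := congrArg φ ((curve_eq _ _ _ _).1 h.1)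
  simp only [map_pow, map_add, map_mul] at hE
  rw [hA, hB]
  linear_combination c ^ 6 * hE

open Classical in
/-- the map on points -/
noncomputable def gmap (φ : F →+* L) {c : L} (hc : c ≠ 0) {A B : F} {A' B' : L}
    (hA : A' = c ^ 4 * φ A) (hB : B' = c ^ 6 * φ B) (h2 : (2 : L) ≠ 0)
    (hΔ : 4 * A' ^ 3 + 27 * B' ^ 2 ≠ 0) :
    (curve A B).toAffine.Point →+ (curve A' B').toAffine.Point where
  toFun P := match P with
    | .zero => 0
    | .some x y h => Point.some (φ x * c ^ 2) (φ y * c ^ 3) (map_ns φ hA hB h2 hΔ h)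
  map_zero' := rfl
  map_add' := by
    intro P Q
    rcases P with _ | ⟨x₁, y₁, h₁⟩
    · have e : (Point.zero : (curve A B).toAffine.Point) = 0 := rfl
      rw [e, zero_add]
      exact (zero_add _).symm
    rcases Q with _ | ⟨x₂, y₂, h₂⟩
    · have e : (Point.zero : (curve A B).toAffine.Point) = 0 := rfl
      rw [e, add_zero]
      exact (add_zero _).symm
    have hφ : Function.Injective φ := φ.injective
    have hc2 : c ^ 2 ≠ 0 := pow_ne_zero 2 hc
    have hc3 : c ^ 3 ≠ 0 := pow_ne_zero 3 hc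
    have iffx : φ x₁ * c ^ 2 = φ x₂ * c ^ 2 ↔ x₁ = x₂ := by
      constructor
      · intro h; exact hφ (mul_right_cancel₀ hc2 h)
      · rintro rfl; rfl
    have iffy : φ y₁ * c ^ 3 = (curve A' B').toAffine.negY (φ x₂ * c ^ 2) (φ y₂ * c ^ 3) ↔
        y₁ = (curve A B).toAffine.negY x₂ y₂ := by
      rw [negY_curve, negY_curve, ← neg_mul, ← map_neg]
      constructor
      · intro h; exact hφ (mul_right_cancel₀ hc3 h)
      · intro h; rw [h]
    by_cases hxy : x₁ = x₂ ∧ y₁ = (curve A B).toAffine.negY x₂ y₂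
    · rw [Point.add_of_Y_eq hxy.1 hxy.2]
      have h3 := Point.add_of_Y_eq (W := (curve A' B').toAffine)
        (h₁ := map_ns φ hA hB h2 hΔ h₁) (h₂ := map_ns φ hA hB h2 hΔ h₂)
        (iffx.2 hxy.1) (iffy.2 hxy.2)
      exact h3.symm
    · have hxy' : ¬ (φ x₁ * c ^ 2 = φ x₂ * c ^ 2 ∧
          φ y₁ * c ^ 3 = (curve A' B').toAffine.negY (φ x₂ * c ^ 2) (φ y₂ * c ^ 3)) := by
        rw [iffx, iffy]; exact hxy
      have hsl : (curve A' B').toAffine.slope (φ x₁ * c ^ 2) (φ x₂ * c ^ 2) (φ y₁ * c ^ 3)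
          (φ y₂ * c ^ 3) = c * φ ((curve A B).toAffine.slope x₁ x₂ y₁ y₂) := by
        by_cases hx : x₁ = x₂
        · have hy : y₁ ≠ (curve A B).toAffine.negY x₂ y₂ := fun h => hxy ⟨hx, h⟩
          rw [slope_of_Y_ne hx hy, slope_of_Y_ne (iffx.2 hx) (fun h => hy (iffy.1 h))]
          subst hx
          have hyy := Y_eq_of_Y_ne h₁.1 h₂.1 rfl hy
          rw [negY_curve, negY_curve]
          simp only [curve]
          rw [hA]
          have hn : φ y₁ * 2 ≠ 0 := by
            intro h0
            apply hy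
            rw [negY_curve, ← hyy]
            have h5 : φ y₁ = 0 := (mul_eq_zero.1 h0).resolve_right h2
            have h6 : y₁ = 0 := hφ (by rw [h5, map_zero])
            rw [h6, neg_zero]
          have hn1 : φ y₁ * c ^ 3 - -(φ y₁ * c ^ 3) ≠ 0 := by
            have : φ y₁ * c ^ 3 - -(φ y₁ * c ^ 3) = φ y₁ * 2 * c ^ 3 := by ring
            rw [this]; exact mul_ne_zero hn hc3
          simp only [map_div₀, map_add, map_sub, map_mul, map_pow, map_neg, map_ofNat, map_zero]
          have hn2 : φ y₁ - -φ y₁ ≠ 0 := by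
            have : φ y₁ - -φ y₁ = φ y₁ * 2 := by ring
            rw [this]; exact hn
          rw [mul_div_assoc', div_eq_div_iff hn1 hn2]
          ring
        · rw [slope_of_X_ne hx, slope_of_X_ne (fun h => hx (iffx.1 h)), map_div₀, map_sub, map_sub]
          have hn2 : φ x₁ - φ x₂ ≠ 0 := sub_ne_zero.2 (fun h => hx (hφ h))
          have hn1 : φ x₁ * c ^ 2 - φ x₂ * c ^ 2 ≠ 0 := by
            rw [← sub_mul]; exact mul_ne_zero hn2 hc2
          rw [mul_div_assoc', div_eq_div_iff hn1 hn2]
          ring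
      have hsum : Point.some x₁ y₁ h₁ + Point.some x₂ y₂ h₂ =
        Point.some _ _ (nonsingular_add h₁ h₂ hxy) := Point.add_some hxy
      have hsum' : Point.some _ _ (map_ns φ hA hB h2 hΔ h₁) +
          Point.some _ _ (map_ns φ hA hB h2 hΔ h₂) =
        Point.some _ _ (nonsingular_add (map_ns φ hA hB h2 hΔ h₁) (map_ns φ hA hB h2 hΔ h₂) hxy') :=
        Point.add_some hxy'
      rw [hsum]
      show Point.some _ _ _ = Point.some _ _ _ + Point.some _ _ _
      rw [hsum']
      have ex : φ ((curve A B).toAffine.addX x₁ x₂ ((curve A B).toAffine.slope x₁ x₂ y₁ y₂)) * c ^ 2 =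
          (curve A' B').toAffine.addX (φ x₁ * c ^ 2) (φ x₂ * c ^ 2)
            ((curve A' B').toAffine.slope (φ x₁ * c ^ 2) (φ x₂ * c ^ 2) (φ y₁ * c ^ 3)
            (φ y₂ * c ^ 3)) := by
        rw [hsl]
        simp only [addX, curve, map_add, map_sub, map_mul, map_pow, map_zero]
        ring
      have ey : φ ((curve A B).toAffine.addY x₁ x₂ y₁
            ((curve A B).toAffine.slope x₁ x₂ y₁ y₂)) * c ^ 3 =
          (curve A' B').toAffine.addY (φ x₁ * c ^ 2) (φ x₂ * c ^ 2) (φ y₁ * c ^ 3)
            ((curve A' B').toAffine.slope (φ x₁ * c ^ 2) (φ x₂ * c ^ 2) (φ y₁ * c ^ 3)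
            (φ y₂ * c ^ 3)) := by
        rw [hsl]
        simp only [addY, negAddY, addX, negY, curve, map_add, map_sub, map_mul, map_pow, map_neg,
          map_zero]
        ring
      simp only [ex, ey]

open Classical in
theorem gmap_some (φ : F →+* L) {c : L} (hc : c ≠ 0) {A B : F} {A' B' : L}
    (hA : A' = c ^ 4 * φ A) (hB : B' = c ^ 6 * φ B) (h2 : (2 : L) ≠ 0)
    (hΔ : 4 * A' ^ 3 + 27 * B' ^ 2 ≠ 0) {x y : F} (h : (curve A B).toAffine.Nonsingular x y) :
    gmap φ hc hA hB h2 hΔ (Point.some x y h) =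
      Point.some (φ x * c ^ 2) (φ y * c ^ 3) (map_ns φ hA hB h2 hΔ h) := rfl

open Classical in
theorem gmap_inj (φ : F →+* L) {c : L} (hc : c ≠ 0) {A B : F} {A' B' : L}
    (hA : A' = c ^ 4 * φ A) (hB : B' = c ^ 6 * φ B) (h2 : (2 : L) ≠ 0)
    (hΔ : 4 * A' ^ 3 + 27 * B' ^ 2 ≠ 0) : Function.Injective (gmap φ hc hA hB h2 hΔ) := by
  rw [injective_iff_map_eq_zero]
  intro P hP
  rcases P with _ | ⟨x, y, h⟩
  · rfl
  · rw [gmap_some] at hP
    exact absurd hP (by simp)

end maps

section rat

variable {k : Type} [Field k]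

/-- the homomorphism with `X ↦ f` -/
theorem exists_lift {K : Type} [Field K] [Algebra k K] {f : K} (hf : Transcendental k f) :
    ∃ Φ : RatFunc k →ₐ[k] K, Φ RatFunc.X = f := by
  have hinj : Function.Injective (aeval f : k[X] →ₐ[k] K) := by
    rw [injective_iff_map_eq_zero]
    intro p hp
    by_contra hne
    exact hf ⟨p, hne, hp⟩
  have hdom : k[X]⁰ ≤ K⁰.comap (aeval f : k[X] →ₐ[k] K) := by
    intro p hp
    rw [Submonoid.mem_comap]
    rw [mem_nonZeroDivisors_iff_ne_zero] at hp ⊢
    intro h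
    exact hp (hinj (by rw [h, map_zero]))
  refine ⟨RatFunc.liftAlgHom (aeval f) hdom, ?_⟩
  rw [← RatFunc.algebraMap_X]
  have := RatFunc.liftAlgHom_apply_div (S := k) (φ := (aeval f : k[X] →ₐ[k] K)) hdom X 1
  rw [map_one, map_one, div_one, div_one, aeval_X] at this
  exact this

/-- a homomorphism is determined by the image of `X` -/
theorem hom_ext {K : Type} [Field K] [Algebra k K] {g g' : RatFunc k →ₐ[k] K}
    (h : g RatFunc.X = g' RatFunc.X) (x : RatFunc k) : g x = g' x := by
  have hp : ∀ (g : RatFunc k →ₐ[k] K) (p : k[X]), g (algebraMap k[X] (RatFunc k) p) =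
      aeval (g RatFunc.X) p := by
    intro g p
    have e : algebraMap k[X] (RatFunc k) p = aeval (RatFunc.X : RatFunc k) p := by
      rw [← RatFunc.algebraMap_X, aeval_algebraMap_apply, aeval_X_left_apply]
    rw [e]
    exact (Polynomial.aeval_algHom_apply g RatFunc.X p).symm
  rw [← RatFunc.num_div_denom x, map_div₀, map_div₀, hp, hp, hp, hp, h]

end rat

section sum

open Classical in
/-- eigenspaces of an involution -/
theorem rank_four {G : Type} [AddCommGroup G] (σ : G →+ G) (P Q : Fin 2 → G)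
    (hP : LinearIndependent ℤ P) (hQ : LinearIndependent ℤ Q) (h1 : ∀ i, σ (P i) = P i)
    (h2 : ∀ i, σ (Q i) = -Q i) : 4 ≤ Module.rank ℤ G := by
  have hsum : LinearIndependent ℤ (Sum.elim P Q) := by
    rw [Fintype.linearIndependent_iff]
    intro g hg
    rw [Fintype.sum_sum_type] at hg
    simp only [Sum.elim_inl, Sum.elim_inr] at hg
    have hσ := congrArg σ hg
    rw [map_add, map_sum, map_sum, map_zero] at hσ
    simp only [map_zsmul, h1, h2, smul_neg, Finset.sum_neg_distrib] at hσ
    have e1 : ∑ i, (2 * g (Sum.inl i)) • P i = 0 := by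
      simp only [mul_smul]
      rw [← Finset.smul_sum, two_smul]
      have := congrArg₂ (· + ·) hg hσ
      simp only [add_zero] at this
      rw [← this]
      abel
    have e2 : ∑ i, (2 * g (Sum.inr i)) • Q i = 0 := by
      simp only [mul_smul]
      rw [← Finset.smul_sum, two_smul]
      have := congrArg₂ (· - ·) hg hσ
      simp only [sub_zero] at this
      rw [← this]
      abel
    rintro (i | i)
    · have := Fintype.linearIndependent_iff.1 hP _ e1 i
      omega
    · have := Fintype.linearIndependent_iff.1 hQ _ e2 i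
      omega
  have h := hsum.cardinal_le_rank
  rw [Cardinal.mk_fintype, Fintype.card_sum, Fintype.card_fin] at h
  exact_mod_cast h

end sum

end Pool.Agent.TH180.R4
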